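import Mathlib
import Pool.Agent.H308R3.Nil

set_option linter.unusedSectionVars false

open Finset Filter Topology

namespace Pool.Agent.Results.MP_7f396f_pr.NilpotentNoCutoff

noncomputable section

/-- Simple random walk on the undirected Cayley graph `G(Z)`: the vertex set is `G`, there is an
edge `{g, g z}` for each `g ∈ G` and `z ∈ Z` (multiple edges counted), and the walk moves to a
uniformly chosen neighbour. The edges at `x` are the pairs `{x, x z}` and the pairs
`{x z⁻¹, x}`, `2 |Z|` in all. -/
def srw {G : Type} [Group G] [DecidableEq G] (Z : Finset G) : Matrix G G ℝ :=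
  fun x y => (((Z.filter fun z => x * z = y).card : ℝ) + ((Z.filter fun z => y * z = x).card : ℝ)) /
    (2 * (Z.card : ℝ))

/-- Worst-case total variation distance to the uniform distribution at time `t`:
`d(t) = max_x (1/2) * ∑_y |P^t(x,y) - 1/|G||`. -/
def dTV {Ω : Type} [Fintype Ω] [DecidableEq Ω] (P : Matrix Ω Ω ℝ) (t : ℕ) : ℝ :=
  ⨆ x : Ω, (1 / 2 : ℝ) * ∑ y, |(P ^ t) x y - 1 / (Fintype.card Ω : ℝ)|

/-- The mixing time `t_mix(ε) = min {t : d(t) ≤ ε}`. -/
def tmix {Ω : Type} [Fintype Ω] [DecidableEq Ω] (P : Matrix Ω Ω ℝ) (ε : ℝ) : ℕ :=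
  sInf {t : ℕ | dTV P t ≤ ε}

/-- The spectral gap `1 - λ₂`, with `λ₂` the second largest eigenvalue; for an irreducible
chain the eigenvalue `1` is simple, so `λ₂` is the largest eigenvalue different from `1`. -/
def gap {Ω : Type} [Fintype Ω] [DecidableEq Ω] (P : Matrix Ω Ω ℝ) : ℝ :=
  1 - sSup (spectrum ℝ P \ {1})

/-- Irreducible and aperiodic: some power of `P` has only positive entries. -/
def IrredAper {Ω : Type} [Fintype Ω] [DecidableEq Ω] (P : Matrix Ω Ω ℝ) : Prop :=
  ∃ t : ℕ, ∀ x y, 0 < (P ^ t) x y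

section

variable {G : Type} [Group G] [Fintype G] [DecidableEq G]

theorem srw_mulVec (Z : Finset G) (hZ : ∀ z ∈ Z, z⁻¹ ∈ Z) (f : G → ℝ) (x : G) :
    (srw Z).mulVec f x = (∑ z ∈ Z, f (x * z)) / (Z.card : ℝ) := by
  have h1 : ∀ y, ((Z.filter fun z => x * z = y).card : ℝ) * f y =
      ∑ z ∈ Z, if x * z = y then f (x * z) else 0 := by
    intro y
    rw [← Finset.sum_filter, Finset.sum_congr rfl (g := fun _ => f y), Finset.sum_const,
      nsmul_eq_mul]
    intro z hz
    rw [(Finset.mem_filter.mp hz).2]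
  have h2 : ∀ y, ((Z.filter fun z => y * z = x).card : ℝ) * f y =
      ∑ z ∈ Z, if x * z⁻¹ = y then f (x * z⁻¹) else 0 := by
    intro y
    have e : (Z.filter fun z => y * z = x) = (Z.filter fun z => x * z⁻¹ = y) := by
      ext z
      simp only [Finset.mem_filter]
      rw [mul_inv_eq_iff_eq_mul]
      constructor
      · rintro ⟨a, b⟩; exact ⟨a, b.symm⟩
      · rintro ⟨a, b⟩; exact ⟨a, b.symm⟩
    rw [e, ← Finset.sum_filter, Finset.sum_congr rfl (g := fun _ => f y), Finset.sum_const,
      nsmul_eq_mul]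
    intro z hz
    rw [(Finset.mem_filter.mp hz).2]
  have h3 : (srw Z).mulVec f x = ∑ y, (((Z.filter fun z => x * z = y).card : ℝ) * f y +
      ((Z.filter fun z => y * z = x).card : ℝ) * f y) / (2 * (Z.card : ℝ)) := by
    simp only [Matrix.mulVec, dotProduct, srw]
    refine Finset.sum_congr rfl fun y _ => by ring
  rw [h3]
  simp only [h1, h2]
  rw [← Finset.sum_div, Finset.sum_add_distrib, Finset.sum_comm, Finset.sum_comm (s := univ)]
  simp only [Finset.sum_ite_eq, Finset.mem_univ, if_true]
  have h4 : ∑ z ∈ Z, f (x * z⁻¹) = ∑ z ∈ Z, f (x * z) := by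
    refine Finset.sum_bij' (fun z _ => z⁻¹) (fun z _ => z⁻¹) hZ hZ ?_ ?_ ?_
    · intro z _; simp
    · intro z _; simp
    · intro z _; rfl
  rw [h4, ← two_mul, mul_div_mul_left _ _ (by norm_num)]

end

/-- The product condition `t_mix * gap → ∞` does not imply cutoff for simple random walks on
Cayley graphs of finite nilpotent groups of bounded step: for every finite nilpotent group `Q`
(of any step, e.g. the trivial group) there are groups `G_n = C_n × Q` with `C_n` cyclic, of step
`max(1, step Q)`, and symmetric generating sets `Z_n` for which the walks are irreducible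
and aperiodic, satisfy the product condition, and have no cutoff. -/
theorem result (Q : Type) [Group Q] [Finite Q] [Group.IsNilpotent Q] :
    ∃ (C : ℕ → Type) (_ : ∀ n, CommGroup (C n)) (_ : ∀ n, Fintype (C n × Q))
      (_ : ∀ n, DecidableEq (C n × Q)) (Z : ∀ n, Finset (C n × Q)),
      (∀ n, IsCyclic (C n)) ∧
      Tendsto (fun n => Fintype.card (C n × Q)) atTop atTop ∧
      (∀ n, ∃ _ : Group.IsNilpotent (C n × Q),
        Group.nilpotencyClass (C n × Q) = max 1 (Group.nilpotencyClass Q)) ∧
      (∀ n, ∀ z ∈ Z n, z⁻¹ ∈ Z n) ∧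
      (∀ n, Subgroup.closure (Z n : Set (C n × Q)) = ⊤) ∧
      (∀ n, IrredAper (srw (Z n))) ∧
      Tendsto (fun n => (tmix (srw (Z n)) (1 / 4) : ℝ) * gap (srw (Z n))) atTop atTop ∧
      ¬ (∀ ε : ℝ, 0 < ε → ε < 1 →
        Tendsto (fun n => (tmix (srw (Z n)) ε : ℝ) / (tmix (srw (Z n)) (1 - ε) : ℝ))
          atTop (𝓝 1)) := by
  classical
  have : Fintype Q := Fintype.ofFinite Q
  choose N hN S hTN hS using fun n : ℕ => Helper394.exists_bad (n + 64) (by omega)
  have hinv : ∀ n, ∀ z ∈ H308R3.Nil.gset (S n) Q, z⁻¹ ∈ H308R3.Nil.gset (S n) Q := by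
    intro n z hz
    simp only [H308R3.Nil.gset, Finset.mem_product, Finset.mem_map, Finset.mem_univ,
      and_true] at hz ⊢
    obtain ⟨a, ha, hb⟩ := hz
    refine ⟨-a, (hS n).neg a ha, ?_⟩
    rw [Prod.fst_inv, ← hb]
    rfl
  have hP : ∀ n, H308R3.Nil.Acts (srw (H308R3.Nil.gset (S n) Q)) (S n) := by
    intro n f x
    rw [srw_mulVec _ (hinv n), H308R3.Nil.avg_gset]
  have h1 : ∀ n, ∀ t ≤ n + 64, 1 / 2 < dTV (srw (H308R3.Nil.gset (S n) Q)) t := by
    intro n t ht
    have h := (hP n).lower (hS n) t ht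
    have h' := Helper394.ciSup_ge_val
      (fun x : Multiplicative (ZMod (N n)) × Q => (1 / 2 : ℝ) *
        ∑ y, |((srw (H308R3.Nil.gset (S n) Q)) ^ t) x y -
          1 / (Fintype.card (Multiplicative (ZMod (N n)) × Q) : ℝ)|) 1
    have h'' : (17 / 32 : ℝ) ≤ dTV (srw (H308R3.Nil.gset (S n) Q)) t := h.trans h'
    linarith
  have h2 : ∀ n, dTV (srw (H308R3.Nil.gset (S n) Q)) (2 * ((n + 64) / 8) + 1) ≤
      1 - 1 / 2000 := by
    intro n
    apply ciSup_le
    intro x
    have := (hP n).upper (hS n) (2 * ((n + 64) / 8)) (by omega) x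
    linarith
  have h3 : ∀ n ε, 0 < ε → ∃ t, dTV (srw (H308R3.Nil.gset (S n) Q)) t ≤ ε := by
    intro n ε hε
    have hG : (0 : ℝ) < Fintype.card (Multiplicative (ZMod (N n)) × Q) := by
      exact_mod_cast Fintype.card_pos
    obtain ⟨t, ht⟩ := (hP n).conv (hS n)
      (ε / Fintype.card (Multiplicative (ZMod (N n)) × Q)) (by positivity)
    refine ⟨t, ciSup_le fun x => ?_⟩
    calc (1 / 2 : ℝ) * ∑ y, |((srw (H308R3.Nil.gset (S n) Q)) ^ t) x y -
          1 / (Fintype.card (Multiplicative (ZMod (N n)) × Q) : ℝ)|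
        ≤ (1 / 2 : ℝ) * ∑ _y : Multiplicative (ZMod (N n)) × Q,
          ε / Fintype.card (Multiplicative (ZMod (N n)) × Q) := by
          gcongr with y
          exact ht x y
      _ = ε / 2 := by
          simp only [Finset.sum_const, Finset.card_univ, nsmul_eq_mul]
          field_simp
      _ ≤ ε := by linarith
  have hmin : ∀ n, ∀ x y, 0 < ((srw (H308R3.Nil.gset (S n) Q)) ^ (n + 64 + 1)) x y := by
    intro n x y
    refine lt_of_lt_of_le ?_ ((hP n).minor_entry (hS n) (n + 64) (by omega) x y)
    have : (0 : ℝ) < Fintype.card (Multiplicative (ZMod (N n)) × Q) := by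
      exact_mod_cast Fintype.card_pos
    positivity
  refine ⟨fun n => Multiplicative (ZMod (N n)), fun n => inferInstance, fun n => inferInstance,
    fun n => inferInstance, fun n => H308R3.Nil.gset (S n) Q, ?_, ?_, ?_, hinv, ?_, ?_, ?_, ?_⟩
  · intro n; infer_instance
  · refine tendsto_atTop_mono (fun n => ?_) tendsto_id
    rw [Fintype.card_prod, Fintype.card_multiplicative, ZMod.card]
    have h4 := hTN n
    have h5 : 0 < Fintype.card Q := Fintype.card_pos
    simp only [id]
    nlinarith
  · intro n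
    have hc : Group.nilpotencyClass (Multiplicative (ZMod (N n))) = 1 := by
      apply le_antisymm CommGroup.nilpotencyClass_le_one
      by_contra hcon
      have h0 : Group.nilpotencyClass (Multiplicative (ZMod (N n))) = 0 := by omega
      rw [Group.nilpotencyClass_zero_iff_subsingleton] at h0
      have h4 : Fintype.card (Multiplicative (ZMod (N n))) ≤ 1 :=
        Fintype.card_le_one_iff_subsingleton.mpr h0
      rw [Fintype.card_multiplicative, ZMod.card] at h4
      have := hTN n
      omega
    exact ⟨inferInstance, by rw [Group.nilpotencyClass_prod, hc]⟩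
  · intro n
    rw [eq_top_iff]
    intro x _
    have hpow : ∀ t : ℕ, ∀ y, y ∉ Subgroup.closure (H308R3.Nil.gset (S n) Q :
        Set (Multiplicative (ZMod (N n)) × Q)) →
        ((srw (H308R3.Nil.gset (S n) Q)) ^ t) 1 y = 0 := by
      intro t
      induction t with
      | zero =>
        intro y hy
        rw [pow_zero, Matrix.one_apply_ne]
        rintro rfl
        exact hy (Subgroup.one_mem _)
      | succ t ih =>
        intro y hy
        rw [pow_succ, Matrix.mul_apply]
        apply Finset.sum_eq_zero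
        intro w _
        by_cases hw : w ∈ Subgroup.closure (H308R3.Nil.gset (S n) Q :
          Set (Multiplicative (ZMod (N n)) × Q))
        · have e1 : ((H308R3.Nil.gset (S n) Q).filter fun z => w * z = y) = ∅ := by
            rw [Finset.filter_eq_empty_iff]
            intro z hz he
            exact hy (he ▸ Subgroup.mul_mem _ hw (Subgroup.subset_closure hz))
          have e2 : ((H308R3.Nil.gset (S n) Q).filter fun z => y * z = w) = ∅ := by
            rw [Finset.filter_eq_empty_iff]
            intro z hz he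
            apply hy
            have : y = w * z⁻¹ := by rw [← he]; group
            rw [this]
            exact Subgroup.mul_mem _ hw (Subgroup.inv_mem _ (Subgroup.subset_closure hz))
          have : srw (H308R3.Nil.gset (S n) Q) w y = 0 := by
            simp only [srw, e1, e2]
            simp
          rw [this, mul_zero]
        · rw [ih w hw, zero_mul]
    by_contra hx
    have h5 := hmin n 1 x
    rw [hpow _ x hx] at h5
    exact lt_irrefl _ h5
  · exact fun n => ⟨_, hmin n⟩
  · have h5 : Tendsto (fun n : ℕ => (n : ℝ) * (1 / 4)) atTop atTop :=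
      tendsto_natCast_atTop_atTop.atTop_mul_const (by norm_num)
    refine tendsto_atTop_mono (fun n => ?_) h5
    have h6 : n + 64 + 1 ≤ tmix (srw (H308R3.Nil.gset (S n) Q)) (1 / 4) :=
      Helper394.sInf_gt _ (n + 64) _ (by norm_num) (h1 n) (h3 n _ (by norm_num))
    have h7 : (n : ℝ) ≤ tmix (srw (H308R3.Nil.gset (S n) Q)) (1 / 4) := by
      have : n ≤ tmix (srw (H308R3.Nil.gset (S n) Q)) (1 / 4) := by omega
      exact_mod_cast this
    have h8 : 1 / 4 ≤ gap (srw (H308R3.Nil.gset (S n) Q)) := by
      rw [gap]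
      have : sSup (spectrum ℝ (srw (H308R3.Nil.gset (S n) Q)) \ {1}) ≤ 3 / 4 := by
        apply Real.sSup_le _ (by norm_num)
        rintro x ⟨hx, hx1⟩
        exact (abs_le.mp ((hP n).spec (hS n) x hx hx1)).2
      linarith
    have h9 : (0 : ℝ) ≤ n := by positivity
    exact mul_le_mul h7 h8 (by norm_num) (by positivity)
  · intro hcut
    exact Helper394.no_cutoff_of (fun n => dTV (srw (H308R3.Nil.gset (S n) Q))) h1 h2 h3
      (hcut (1 / 2000) (by norm_num) (by norm_num))

end

end Pool.Agent.Results.MP_7f396f_pr.NilpotentNoCutoff
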